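import Pool.Agent.Zk51.RI.Growth

/-!
# Beilinson–Soulé vanishing and the size of the motivic cohomology in degree zero

`MotivicData` collects the groups of the problem and the known theorems about them which are used:
`H n r R` is the weight `n` part `K_(2n+r)(R)_ℚ^(n)` of the rational `K`-theory of a commutative ring
`R`; for a field `F` it is the motivic cohomology `H^(-r)(F, ℚ(n))`, the group of degree `-r` of the
complex `ℚ(n)`. `Acyclic k n r` says that the Zariski cohomology sheaf of the complex `ℤ(n)` on the
smooth schemes over the field `k` is zero in degree `-r`.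

Let `P` be a number field or a finite field, for example a prime field, and let `Ω` be an
algebraically closed field containing `P` of infinite transcendence degree over `P`. Let `N` be a
natural number.

Theorem. The following are equivalent:
(1) for every perfect field `k` containing `P` the complex `ℤ(n)` on `Sm/k` is acyclic in degree `-r`, for all
    `n ≥ 1` and `r ≥ 0` with `n + r ≤ N`;
(2) the dimension of `H^0(Ω, ℚ(n))` is smaller than the transcendence degree of `Ω` over `P` for
    `1 ≤ n ≤ N`;
(3) the dimension of the span of the conjugates of every element of `H^0(Ω, ℚ(n))` under the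
    automorphisms of the field `Ω` is smaller than the transcendence degree, for `1 ≤ n ≤ N`;
(4) for `1 ≤ n ≤ N` and all `d` there is an `m` such that `H^0(L, ℚ(n))` has dimension less than `m`
    for `L` algebraically closed of transcendence degree `m d` over `P`.

When the transcendence degree of `Ω` is countable, (2) says that `H^0(Ω, ℚ(n))` is finite
dimensional.
-/

set_option autoImplicit false

open CategoryTheory Cardinal Pool.Agent.Zk51.RI

namespace Pool.Agent.Results.MP_e2821c_ag.FiniteDimensionalDegreeZero

/-- Rational motivic cohomology of fields and the motivic complexes, with the known theorems which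
are used. -/
structure MotivicData where
  /-- the weight `n` part of the rational `K`-group `K_(2n+r)` of a commutative ring -/
  H : ℕ → ℕ → CommRingCat.{0} ⥤ ModuleCat.{0} ℚ
  /-- `K`-theory commutes with directed unions of rings -/
  continuous : ∀ n r, IsContRing (H n r)
  /-- injectivity for finite extensions of fields (by the transfer) -/
  transfer : ∀ (n r : ℕ) (F E : Type) [Field F] [Field E] [Algebra F E], FiniteDimensional F E →
    Function.Injective ((H n r).map (CommRingCat.ofHom (algebraMap F E))).hom
  /-- Borel's theorem for number fields -/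
  borel : ∀ n r : ℕ, 1 ≤ n → ∀ (F : Type) [Field F] [NumberField F],
    Subsingleton ((H n r).obj (.of F))
  /-- Quillen's theorem for finite fields -/
  quillen : ∀ n r : ℕ, 1 ≤ n → ∀ (F : Type) [Field F] [Finite F], Subsingleton ((H n r).obj (.of F))
  /-- multiplication with the symbol `{t}` of the variable is an injective map from
  `H^(-(r+1))(F, ℚ(n))` to `H^(-r)(F(t), ℚ(n+1))` (its residue at `t = 0` is the identity) -/
  symbol : ∀ (n r : ℕ) (F : Type) [Field F], ∃ f : (H n (r + 1)).obj (.of F) →ₗ[ℚ]
    (H (n + 1) r).obj (.of (FractionRing (Polynomial F))), Function.Injective f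
  /-- the Zariski cohomology sheaf of `ℤ(n)` on `Sm/k` in degree `-r` is zero -/
  Acyclic : ∀ (k : Type) [Field k], ℕ → ℕ → Prop
  /-- for a perfect field the sheaf vanishes if and only if the groups of all finitely generated
  extension fields vanish (Voevodsky), and these have no torsion (Beilinson–Lichtenbaum) -/
  gersten : ∀ (k : Type) [Field k] [PerfectField k] (n r : ℕ), 1 ≤ n → (Acyclic k n r ↔
    ∀ (F : Type) [Field F] [Algebra k F], Algebra.EssFiniteType k F →
      Subsingleton ((H n r).obj (.of F)))

/-- **The Beilinson–Soulé conjecture for all fields containing `P` is equivalent to a bound for the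
dimensions of the groups in degree zero of one algebraically closed field.** -/
theorem result (T : MotivicData) (P : Type) [Field P] (hP : NumberField P ∨ Finite P)
    (Ω : Type) [Field Ω] [IsAlgClosed Ω] [Algebra P Ω] (hΩ : ℵ₀ ≤ Algebra.trdeg P Ω) (N : ℕ) :
    List.TFAE
      [∀ (k : Type) [Field k] [PerfectField k] [Algebra P k], ∀ n r : ℕ, 1 ≤ n → n + r ≤ N →
          T.Acyclic k n r,
        ∀ n, 1 ≤ n → n ≤ N → Module.rank ℚ ((T.H n 0).obj (.of Ω)) < Algebra.trdeg P Ω,
        ∀ n, 1 ≤ n → n ≤ N → ∀ α : (T.H n 0).obj (.of Ω),
          Module.rank ℚ (Submodule.span ℚ (Set.range fun σ : Ω ≃+* Ω =>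
            ((T.H n 0).map (CommRingCat.ofHom (σ : Ω →+* Ω))).hom α)) < Algebra.trdeg P Ω,
        ∀ n, 1 ≤ n → n ≤ N → ∀ d : ℕ, ∃ m : ℕ,
          ∀ (L : Type) [Field L] [IsAlgClosed L] [Algebra P L],
            Algebra.trdeg P L = ((m * d : ℕ) : Cardinal.{0}) →
            Module.rank ℚ ((T.H n 0).obj (.of L)) < (m : Cardinal.{0})] := by
  have hbase : ∀ n, 1 ≤ n → ∀ (F : Type) [Field F] [Algebra P F], FiniteDimensional P F →
      Subsingleton ((T.H n 0).obj (.of F)) := by
    intro n hn F _ _ hF
    rcases hP with hP | hP
    · have h1 : CharZero F := charZero_of_injective_algebraMap (algebraMap P F).injective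
      have h3 : FiniteDimensional ℚ F := FiniteDimensional.trans ℚ P F
      have h2 : NumberField F := { to_charZero := h1, to_finiteDimensional := h3 }
      exact T.borel n 0 hn F
    · have h1 : Finite F := Module.finite_of_finite P
      exact T.quillen n 0 hn F
  have hC := fun (n : ℕ) (hn : 1 ≤ n) => fields_tfae (T.continuous n 0) P (hbase n hn)
    (T.transfer n 0) Ω hΩ
  have hup : (∀ n, 1 ≤ n → n ≤ N → ∀ (F : Type) [Field F] [Algebra P F],
      Subsingleton ((T.H n 0).obj (.of F))) →
      ∀ r n, 1 ≤ n → n + r ≤ N → ∀ (F : Type) [Field F] [Algebra P F],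
        Subsingleton ((T.H n r).obj (.of F)) := by
    intro h r
    induction r with
    | zero => exact fun n hn hN F _ _ => h n hn (by omega) F
    | succ r ih =>
      intro n hn hN F _ _
      let _ : Algebra P (FractionRing (Polynomial F)) :=
        ((algebraMap (Polynomial F) (FractionRing (Polynomial F))).comp
          (algebraMap P (Polynomial F))).toAlgebra
      have h1 := ih (n + 1) (by omega) (by omega) (FractionRing (Polynomial F))
      obtain ⟨f, hf⟩ := T.symbol n r F
      exact hf.subsingleton
  tfae_have 1 → 2 := by
    intro h n hn hN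
    have h1 : Subsingleton ((T.H n 0).obj (.of Ω)) :=
      (T.gersten Ω n 0 hn).1 (h Ω n 0 hn (by omega)) Ω inferInstance
    rw [rank_subsingleton']
    exact Cardinal.aleph0_pos.trans_le hΩ
  tfae_have 2 → 3 := fun h n hn hN => ((hC n hn).out 1 2).1 (h n hn hN)
  tfae_have 3 → 4 := fun h n hn hN => ((hC n hn).out 2 3).1 (h n hn hN)
  tfae_have 4 → 1 := by
    intro h k _ _ _ n r hn hN
    rw [T.gersten k n r hn]
    intro F _ _ _
    let _ : Algebra P F := ((algebraMap k F).comp (algebraMap P k)).toAlgebra
    refine hup (fun n hn hN F _ _ => ?_) r n hn hN F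
    have h1 := ((hC n hn).out 3 0).1 (h n hn hN)
    exact h1 F
  tfae_finish

end Pool.Agent.Results.MP_e2821c_ag.FiniteDimensionalDegreeZero
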