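import Pool.Agent.Zk8.BS.Fin

/-!
# The Beilinson-Soulé vanishing in weight two for function fields of any transcendence degree

Data: `Homology Ω V` are the groups of motivic homology
`M X i j = H_i^M(X, ℚ(j)) = CH_j(X, i - 2 j) ⊗ ℚ` (higher Chow groups) and of `ℓ`-adic homology
`E X i j = H_i(X, ℚ_ℓ(j))` (coefficients extended to `Ω`) of schemes `X : V` of finite type over finite
fields, with the Frobenius and the regulator. For a smooth scheme `X` of pure dimension `d` we have
`M X (2 d - a) (d - n) = H^a(X, ℚ(n))`, the cohomology of the complex `ℚ(n)`.

Let `𝒢` (`Generated`) be the smallest class of schemes over finite fields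
* that contains the schemes with the homology groups of an abelian variety `Y` of dimension at most
  five, or of an abelian variety `Y` that is isogenous, over an algebraic closure, to a product of a
  supersingular abelian variety of any dimension and of abelian varieties of dimension at most three
  (any number, any multiplicity), where any two factors of dimension three whose CM fields have the
  same Galois closure satisfy one of the following: their fields are Galois over `ℚ`; one of them is
  supersingular; they are isogenous; neither of them is ordinary and their `p`-ranks are not `{1, 2}`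
  (`IsGoodAbelianP`; so `Y` may be any product of elliptic curves, of abelian surfaces, and of abelian
  threefolds of `p`-rank two);
* that contains the schemes for which the conjecture `TB` of Tate, Beilinson and Jannsen is known
  otherwise, such as all curves and all products of at most three curves (Tate, Soulé);
* that is closed under direct summands of finite sums of twists of motives;
* and that contains all of a closed subscheme `Z` of `X`, `X` and `X ∖ Z` if it contains two of them.

**Theorem.** Let `X` be a smooth projective scheme of pure dimension `d` in `𝒢`.

1. Let `F` be the function field of `X`, or any subfield of it over which it is finitely generated.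
   Then `H^a(F, ℤ(2)) = 0` for all `a ≤ 0`, and `H^1(F, ℤ(2))`, the indecomposable part of `K_3(F)`, is
   a torsion group. If `d ≤ 2` then `H^a(F, ℤ(n)) = 0` for all `n ≥ 1` and all `a ≤ 0`.
2. For all open subschemes `U` of `X` with a complement `Z` of dimension less than `d`, `Z` arbitrary,
   `H^a(U, ℚ(2)) = 0` for all `a ≤ 1`, and, if `d ≤ 2`, `H^a(U, ℚ(n)) = 0` for all `n ≥ 1`, `a ≤ 0`.
3. For all smooth `U` in `𝒢` (open or not) `H^a(U, ℚ(n)) = 0` for all `n` and all `a < n`.

The transcendence degree `d` is arbitrary in weight two. As the cohomology sheaves of `ℤ(n)` are
homotopy invariant, their stalks on a smooth scheme are contained in the groups of the function field;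
so the complex `ℤ(2)` is acyclic outside `[1, 2]` on all smooth schemes with function field `F`, and
`ℤ(n)` is acyclic outside `[1, n]` for all `n` if `d ≤ 2`.

Properties of the theory of cycles that are used: for abelian varieties (`IsChowS`, `IsMotivic`)
Poincaré duality, the formal properties of correspondences, the nilpotence of homologically trivial
correspondences (Kimura), the operation of the Frobenius endomorphism on higher Chow groups, the
vanishing of the higher rational `K`-groups of a finite field (Quillen), and the algebraicity of the
classes in the system generated by Tate classes of degree two, by reductions of split Weil classes on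
abelian fourfolds and sixfolds of CM type and by reductions of the Hodge classes of degree four on
products of elliptic curves and abelian surfaces of CM type (theorems of Tate, Markman and Ramón Marí);
for arbitrary schemes `Z` (`IsDimension`) the vanishing of the higher Chow groups of cycles of
codimension zero and one (Bloch), and, for curves, of negative dimension (Quillen, Harder); the
localisation sequences; for the smooth projective `X` purity (`IsPure`, Deligne), and for the smooth
`U` the bounds for the weights (`HasSmoothWeights`, Deligne). `IsGeneric` says that the groups of the
function field are direct limits of those of open subschemes; `IsSubfield` contains the injectivity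
up to torsion for subfields (transfers and specialisation), and the absence of torsion in degrees
`a ≤ 0` (Voevodsky and Rost; Geisser and Levine).
-/

set_option autoImplicit false

namespace Pool.Agent.Results.MP_e2821c_ag.WeightTwo

open Pool.Agent.W495.FM Pool.Agent.W495.TA Pool.Agent.X303.TBDual Pool.Agent.R937.PG
open Pool.Agent.Zk8.BS

/-- The class `𝒢`. -/
def InClass {Ω V : Type} [Field Ω] [CharZero Ω] (p : ℕ) [Fact p.Prime] (ν : PadicAlgCl p ≃+* ℂ)
    (T : Homology Ω V) (X : V) : Prop :=
  Generated T (fun Y => IsGoodAbelianP p ν T Y ∨ TB T Y) X

/-- **The Beilinson-Soulé vanishing**: in weight two for the subfields of the function fields, of any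
transcendence degree, of the smooth projective members of the class `𝒢`; in all weights if the
transcendence degree is at most two; and in all weights for the smooth members. -/
theorem result (p : ℕ) [Fact p.Prime] (ν : PadicAlgCl p ≃+* ℂ) (Ω : Type) [Field Ω]
    [IsAlgClosed Ω] [CharZero Ω] (V : Type) (T : Homology Ω V) (hT : IsHomology T) (dim : V → ℤ)
    (hD : IsDimension T dim) :
    (∀ (X : V) (d : ℤ), InClass p ν T X → IsPure T X →
      ∀ (H : ℤ → ℤ → Type) [∀ a n, AddCommGroup (H a n)], IsGeneric T dim X d H →
      ∀ (G : ℤ → ℤ → Type) [∀ a n, AddCommGroup (G a n)], IsSubfield G H →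
        (∀ a : ℤ, a ≤ 0 → ∀ x : G a 2, x = 0) ∧
        (∀ x : G 1 2, ∃ N : ℕ, 0 < N ∧ N • x = 0) ∧
        (d ≤ 2 → ∀ n : ℤ, 1 ≤ n → ∀ a : ℤ, a ≤ 0 → ∀ x : G a n, x = 0)) ∧
    (∀ (X : V) (d : ℤ), InClass p ν T X → IsPure T X →
      ∀ Z U : V, IsTriple T Z X U → dim Z < d →
        (∀ a : ℤ, a ≤ 1 → ∀ x : T.M U (2 * d - a) (d - 2), x = 0) ∧
        (d ≤ 2 → ∀ n : ℤ, 1 ≤ n → ∀ a : ℤ, a ≤ 0 → ∀ x : T.M U (2 * d - a) (d - n), x = 0)) ∧
    (∀ (U : V) (d : ℤ), InClass p ν T U → HasSmoothWeights T U d →
      ∀ n a : ℤ, a < n → ∀ x : T.M U (2 * d - a) (d - n), x = 0) :=
  ⟨part1 hT hD, part2 hT hD, part3 hT⟩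

end Pool.Agent.Results.MP_e2821c_ag.WeightTwo
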